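import Pool.Agent.Lib.MP_15cfc2_co.Bridge

open Pool.Agent

/-- `c(d,k) ≤ (1 + ⌊k/j⌋)^(1 - j/2)` for every `1 ≤ j ≤ d - k`; in particular `c(d,k) < 1` whenever
`3 ≤ k ≤ d - 3`. -/
theorem Pool.Agent.Results.MP_15cfc2_co.BlockBound.result (d k j : ℕ) (hj : 1 ≤ j)
    (hjd : j + k ≤ d) (c : ℝ) (hc : c ∈ EllipsoidCylinders.admissibleSet d k) :
    c ≤ (1 + (k / j : ℕ) : ℝ) ^ (1 - (j : ℝ) / 2) :=
  MP15cfc2.upper_bound hj hjd ((MP15cfc2.admissible_iff c).1 hc)
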