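import Pool.Agent.Lib.MP_15cfc2_co_hr.Main

open Pool.Agent Pool.Agent.EllipsoidCylinders

/-- For every fixed `k ≥ 2`, `c(d,k) (d/2)^(k/2-1) → Γ(k/2)` as `d → ∞`. -/
theorem Pool.Agent.Results.MP_15cfc2_co.FixedKAsymptotics.result (k : ℕ) (hk : 2 ≤ k) :
    ∃ c : ℕ → ℝ, (∀ d, k < d → IsGreatest (admissibleSet d k) (c d)) ∧
      Filter.Tendsto (fun d : ℕ => c d * ((d : ℝ) / 2) ^ ((k : ℝ) / 2 - 1)) Filter.atTop
        (nhds (Real.Gamma ((k : ℝ) / 2))) :=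
  ⟨fun d => MP15cfc2.HR.cc d k, fun d hd => MP15cfc2.HR.isGreatest_cc hd,
    MP15cfc2.HR.tendsto_cc hk⟩
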