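import Pool.Agent.Lib.MP_15cfc2_co_hr.Main

open Pool.Agent Pool.Agent.EllipsoidCylinders

/-- `c(d,k) = G(d,k) = Γ(k/2) Γ((d-k)/2+1) / Γ(d/2)` whenever `2 ≤ k < d` and `k` is at most the
Radon–Hurwitz number `ρ(d-k)`, and also for `k = 2` and all `d ≥ 3`. -/
theorem Pool.Agent.Results.MP_15cfc2_co.HurwitzRadonExact.result (d k : ℕ) (hk : 2 ≤ k)
    (hkd : k < d) (h : k = 2 ∨ k ≤ radonHurwitz (d - k)) :
    IsGreatest (admissibleSet d k) (G d k) := by
  have h1 := MP15cfc2.HR.isGreatest_cc hkd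
  have h2 := MP15cfc2.HR.lowerConst_le_cc hk hkd
  have h3 : MP15cfc2.HR.cc d k ≤ G d k := by
    rcases h with h | h
    · subst h
      have e : G d 2 = 1 := by
        unfold G
        have h1 : (((2 : ℕ) : ℝ) / 2) = 1 := by norm_num
        have h2 : ((d : ℝ) - ((2 : ℕ) : ℝ)) / 2 + 1 = (d : ℝ) / 2 := by push_cast; ring
        rw [h1, h2, Real.Gamma_one, one_mul]
        apply div_self
        apply (Real.Gamma_pos_of_pos _).ne'
        have : (0 : ℝ) < d := by exact_mod_cast (by omega : 0 < d)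
        linarith
      rw [e]
      exact MP15cfc2.admissible_le_one hkd (MP15cfc2.isGreatest_sSup hkd).1
    · have h3 := MP15cfc2.HR.cc_le (d := d) (p := d - k) (by omega) (by omega) (by omega)
        (MP15cfc2.HR.exists_orthMul_of_le (by omega) (by omega) h)
      have e : k + (d - k) = d := by omega
      rw [e] at h3
      exact h3
  have h4 : MP15cfc2.HR.cc d k = G d k := le_antisymm h3 h2
  rwa [h4] at h1
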