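import Pool.Agent.Lib.MP_15cfc2_co.Bridge

open Pool.Agent

/-- For all `3 ≤ k ≤ d - 2` the constant `c(d,k)` equals
`Γ(k/2) Γ((d-k)/2+1) / Γ(d/2)` up to a factor of at most `28 d log d`. -/
theorem Pool.Agent.Results.MP_15cfc2_co.TwoSided.result (d k : ℕ) (hk : 3 ≤ k) (hkd : k + 2 ≤ d) :
    ∃ c : ℝ, IsGreatest (EllipsoidCylinders.admissibleSet d k) c ∧
      Real.Gamma (k / 2) * Real.Gamma ((d - k) / 2 + 1) / Real.Gamma (d / 2) ≤ c ∧
      c ≤ 28 * d * Real.log d *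
        (Real.Gamma (k / 2) * Real.Gamma ((d - k) / 2 + 1) / Real.Gamma (d / 2)) := by
  have hg := MP15cfc2.isGreatest_sSup (d := d) (k := k) (by omega)
  rw [MP15cfc2.admissibleSet_eq]
  refine ⟨_, hg, ?_, ?_⟩
  · exact hg.2 (MP15cfc2.lower_bound (by omega) (by omega))
  · exact MP15cfc2.log_bound (by omega) (by omega) hg.1
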